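import Pool.Agent.MP_686ee2_an.SW.Final

/-!
The Balan-Wang conjecture for frames whose column space contains, or is contained in, a Chebyshev space.
-/

namespace Pool.Agent.Results.MP_686ee2_an.ChebyshevSpace

open Finset

/-- **Result.** Let `M > 1`, `A` a real `(2M-1) × M` matrix, `u` an ordered list of `ℓ` different rows, `Y` a
set of further rows and `E` the space of the restrictions to `u` of the vectors `A x` which vanish on `Y`
(the expected dimension of `E` is `M - |Y|`). Let `V` be a real `ℓ × m` matrix, a Chebyshev system in the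
weak sense and up to signs: `ε * ∏ η (t i) * det (V (t i) j) ≥ 0` for all `t 0 < ⋯ < t (m-1)`, where `ε` and
the `η k` are nonzero numbers, and `det (V (t i) j) ≠ 0` for some `t`. Suppose that for some `g` and `μ`

* (inside) `E` contains the column space of `V`, `|Y| + m + g = M`, `μ ≤ m` and `m + 2 g + μ ≤ ℓ + 1`, or
* (outside) `E` is contained in the column space of `V`, `|Y| + m = M + g`, `m + μ ≤ ℓ` and `μ + 2 g ≤ m + 1`.

Then there are a set `S` of rows whose complement has rank `< M` and a unit vector `x` with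
`‖A_S x‖ ≤ 2 M · 2^(-μ ^ 3 / (256 (g + μ) ^ 2)) · ‖A_k‖` for some row `k`; hence
`ω(A) ≤ 2 M · 2^(-μ ^ 3 / (256 (g + μ) ^ 2)) · max ‖A_k‖`.

In particular (all rows, `Y` empty) `ω(A) ≤ 2 M · 2^(-m ^ 3 / (256 M ^ 2)) · max ‖A_k‖` if the column space of
`A` contains a Chebyshev space of dimension `m`, and
`ω(A) ≤ 2 M · 2^(-(2 M - 1 - p) ^ 3 / (256 (M - 1) ^ 2)) · max ‖A_k‖` if it is contained in one of dimension
`p < 2 M - 1`. -/
theorem result (M : ℕ) (hM : 1 < M) (A : Matrix (Fin (2 * M - 1)) (Fin M) ℝ) (ℓ m g μ : ℕ)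
    (u : Fin ℓ → Fin (2 * M - 1)) (hu : Function.Injective u)
    (Y : Finset (Fin (2 * M - 1))) (hY : ∀ k, u k ∉ Y)
    (V : Matrix (Fin ℓ) (Fin m) ℝ) (ε : ℝ) (hε : ε ≠ 0) (η : Fin ℓ → ℝ) (hη : ∀ k, η k ≠ 0)
    (hsign : ∀ t : Fin m → Fin ℓ, StrictMono t → 0 ≤ ε * (∏ i, η (t i)) * (V.submatrix t id).det)
    (hne : ∃ t : Fin m → Fin ℓ, StrictMono t ∧ (V.submatrix t id).det ≠ 0)
    (h :
      ((∀ c : Fin m → ℝ, ∃ x : Fin M → ℝ, (∀ y ∈ Y, ∑ l, A y l * x l = 0) ∧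
          ∀ k, ∑ l, A (u k) l * x l = ∑ j, V k j * c j) ∧
        Y.card + m + g = M ∧ μ ≤ m ∧ m + 2 * g + μ ≤ ℓ + 1) ∨
      ((∀ x : Fin M → ℝ, (∀ y ∈ Y, ∑ l, A y l * x l = 0) →
          ∃ c : Fin m → ℝ, ∀ k, ∑ l, A (u k) l * x l = ∑ j, V k j * c j) ∧
        Y.card + m = M + g ∧ m + μ ≤ ℓ ∧ μ + 2 * g ≤ m + 1)) :
    ∃ S : Finset (Fin (2 * M - 1)),
      Module.finrank ℝ
          (Submodule.span ℝ
            (Set.range (fun i : {i : Fin (2 * M - 1) // i ∉ S} => A i.1))) < M ∧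
      ∃ x : Fin M → ℝ, ∑ j, x j ^ 2 = 1 ∧
        ∃ k : Fin (2 * M - 1),
          Real.sqrt (∑ i ∈ S, (∑ j, A i j * x j) ^ 2)
            ≤ 2 * M * (1 / 2 : ℝ) ^ ((μ : ℝ) ^ 3 / (256 * (g + μ : ℕ) ^ 2)) *
              Real.sqrt (∑ j, A k j ^ 2) := by
  rcases h with ⟨h, h1, h2, h3⟩ | ⟨h, h1, h2, h3⟩
  · exact (Pool.Agent.BalanWangSW.main_in hM.le A ℓ u hu V η hη ε hε hsign hne Y hY g μ h h1 h2
      h3).concl hM.le
  · exact (Pool.Agent.BalanWangSW.main_out hM.le A ℓ u hu V η hη ε hε hsign hne Y hY g μ h h1 h2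
      h3).concl hM.le

end Pool.Agent.Results.MP_686ee2_an.ChebyshevSpace
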