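import Pool.Agent.MP_686ee2_an.SC.Final

/-!
The Balan-Wang problem for matrices whose measurement vectors have few sign changes.
-/

namespace Pool.Agent.Results.MP_686ee2_an.FewSignChanges

open Finset

/-- **Result.** Let `M > 1`, `A` a real `(2M-1) × M` matrix and `g ≥ 0`. Suppose that for some order `π` of
the rows and some signs `η k = ±1` every vector `(η k * (A x) (π k))`, all of whose entries are nonzero,
has at most `M - 1 + g` sign changes, where `signChanges` counts the pairs of neighbouring entries with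
negative product. Then there are a set `S` of rows whose complement has rank `< M` and a unit vector `x`
with `‖A_S x‖ ≤ 2 · 2^(-√(M/(g+1))/12) · ‖A_k‖` for some row `k`; hence
`ω(A) ≤ 2 · 2^(-√(M/(g+1))/12) · max ‖A_k‖`. -/
theorem result (M : ℕ) (hM : 1 < M) (A : Matrix (Fin (2 * M - 1)) (Fin M) ℝ) (g : ℕ)
    (π : Equiv.Perm (Fin (2 * M - 1))) (η : Fin (2 * M - 1) → ℝ) (hη : ∀ k, η k = 1 ∨ η k = -1)
    (hA : ∀ x : Fin M → ℝ, (∀ k, ∑ j, A k j * x j ≠ 0) →
      Pool.Agent.BalanWangSC.signChanges (fun k => η k * ∑ j, A (π k) j * x j) ≤ M - 1 + g) :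
    ∃ S : Finset (Fin (2 * M - 1)),
      Module.finrank ℝ
          (Submodule.span ℝ
            (Set.range (fun i : {i : Fin (2 * M - 1) // i ∉ S} => A i.1))) < M ∧
      ∃ x : Fin M → ℝ, ∑ j, x j ^ 2 = 1 ∧
        ∃ k : Fin (2 * M - 1),
          Real.sqrt (∑ i ∈ S, (∑ j, A i j * x j) ^ 2)
            ≤ 2 * (1 / 2 : ℝ) ^ (Real.sqrt (M / (g + 1)) / 12) * Real.sqrt (∑ j, A k j ^ 2) :=
  Pool.Agent.BalanWangSC.few_sign_changes M hM A g π η hη hA

end Pool.Agent.Results.MP_686ee2_an.FewSignChanges
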