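import Pool.Agent.BWG.T1

set_option autoImplicit false

open MeasureTheory Filter Topology

namespace Pool.Agent.Results.MP_686ee2_an.RandomFrames

/-- Random frames satisfy the conjecture of Balan and Wang, and their exact exponential rate is
`1/4` (here `M = m + 1`, so `2 M - 1 = 2 m + 1`). Let the `2 m + 1` rows be independent with a
common law `μ m` on `ℝ^(m+1)` that is regular with constants independent of `m`.
(i) Almost every such frame is full spark. (ii) For all `C > 0`, `β > 1/4` the probability that the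
inequality `ω(A) ≤ C β^M max ‖A_k‖` fails tends to `0`. (iii) For all `C > 0`, `0 ≤ β < 1/4` the
probability that it holds tends to `0`. The standard Gaussian laws are regular, and in particular
the conjectured inequality cannot hold with a base `β < 1/4`. -/
theorem result :
    (∀ (c C₀ : ℝ), 0 < c → 0 < C₀ → ∀ μ : (m : ℕ) → Measure (Fin (m + 1) → ℝ),
      (∀ m, IsProbabilityMeasure (μ m)) → (∀ m, BWG.Reg (μ m) c C₀) →
      (∀ m, ∀ᵐ A ∂(Measure.pi (fun _ : Fin (2 * m + 1) => μ m)), BWG.FullSpark (m + 1) A) ∧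
      (∀ C β : ℝ, 0 < C → 1 / 4 < β →
        Tendsto (fun m => (Measure.pi (fun _ : Fin (2 * m + 1) => μ m))
          {A | ¬ BWG.BWC C (m + 1) β A}) atTop (𝓝 0)) ∧
      (∀ C β : ℝ, 0 < C → 0 ≤ β → β < 1 / 4 →
        Tendsto (fun m => (Measure.pi (fun _ : Fin (2 * m + 1) => μ m))
          {A | BWG.BWC C (m + 1) β A}) atTop (𝓝 0))) ∧
    (∀ k : ℕ,
      BWG.Reg (Measure.pi (fun _ : Fin k => ProbabilityTheory.gaussianReal 0 1)) (2 / 5) 1) ∧
    (∀ C β : ℝ, 0 < C → 0 ≤ β → β < 1 / 4 → ∀ᶠ m : ℕ in atTop,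
      ∃ A : Fin (2 * m + 1) → Fin (m + 1) → ℝ,
        BWG.FullSpark (m + 1) A ∧ ¬ BWG.BWC C (m + 1) β A) :=
  BWG.main

end Pool.Agent.Results.MP_686ee2_an.RandomFrames
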