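import Pool.Agent.MP_686ee2_an.RC.Curve

/-!
The Balan-Wang conjecture for frames that carry a long rational curve: exponential decay of `ω(A)` when
`M + r` of the rows lie on a rational normal curve, more generally when `|J|` of the rows lie on a rational
curve of degree at most `|J| - 1 - r`, and still more generally when the space of row relations, or the
column space, contains a weighted space of polynomials of degree less than `r` in one complex variable.
-/

namespace Pool.Agent.Results.MP_686ee2_an.RationalCurve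

open Finset

/-- **Result.** Let `A` be a real `(2M-1) × M` matrix, `M > 1` and `r ≥ 2`. Suppose that one of the
following holds.

* (curve) There are a set `J` of rows, nonzero complex numbers `v k` and distinct complex numbers `t k`
  (`k ∈ J`) and `M` complex polynomials `φ l` of degree at most `|J| - 1 - r` with
  `A k l = v k * φ l (t k)` for `k ∈ J`; nothing is assumed on the other rows.
* (relations and vectors) There are complex numbers `w k`, `t k` and a set `I` of rows such that at least
  `|I|` rows outside `I` have `w k = 0`, such that `t` is not constant on the rows outside `I` with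
  `w k ≠ 0`, and such that either each of the `r` vectors `(w k * t k ^ j)`, `j < r`, can be completed on `I`
  to a linear relation between the rows of `A`, or each of them can be completed on `I` to a vector of
  the complexified column space of `A`.

Then there are a set `S` of rows whose complement has rank `< M` and a unit vector `x` with
`‖A_S x‖ ≤ M · 2^(-(r-2)/24) · ‖A_k‖` for some row `k`; hence
`ω(A) ≤ M · 2^(-(r-2)/24) · max ‖A_k‖`. -/
theorem result (M : ℕ) (hM : 1 < M) (A : Matrix (Fin (2 * M - 1)) (Fin M) ℝ) (r : ℕ) (hr : 2 ≤ r)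
    (h :
      (∃ (J : Finset (Fin (2 * M - 1))) (v t : Fin (2 * M - 1) → ℂ) (φ : Fin M → Polynomial ℂ),
        (∀ k ∈ J, v k ≠ 0) ∧ (∀ k ∈ J, ∀ l ∈ J, t k = t l → k = l) ∧
        (∀ l, (φ l).natDegree + r + 1 ≤ J.card) ∧
        ∀ k ∈ J, ∀ l, (A k l : ℂ) = v k * (φ l).eval (t k)) ∨
      (∃ (w t : Fin (2 * M - 1) → ℂ) (I : Finset (Fin (2 * M - 1))),
        I.card ≤ (univ.filter (fun k => k ∉ I ∧ w k = 0)).card ∧
        (∃ k, k ∉ I ∧ w k ≠ 0 ∧ ∃ l, l ∉ I ∧ w l ≠ 0 ∧ t k ≠ t l) ∧
        ((∀ j < r, ∃ c : Fin (2 * M - 1) → ℂ, (∀ k, k ∉ I → c k = w k * t k ^ j) ∧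
            ∀ l, ∑ k, c k * (A k l : ℂ) = 0) ∨
          (∀ j < r, ∃ c : Fin M → ℂ, ∀ k, k ∉ I → ∑ l, (A k l : ℂ) * c l = w k * t k ^ j)))) :
    ∃ S : Finset (Fin (2 * M - 1)),
      Module.finrank ℝ
          (Submodule.span ℝ
            (Set.range (fun i : {i : Fin (2 * M - 1) // i ∉ S} => A i.1))) < M ∧
      ∃ x : Fin M → ℝ, ∑ j, x j ^ 2 = 1 ∧
        ∃ k : Fin (2 * M - 1),
          Real.sqrt (∑ i ∈ S, (∑ j, A i j * x j) ^ 2)
            ≤ M * (1 / 2 : ℝ) ^ (((r : ℝ) - 2) / 24) * Real.sqrt (∑ j, A k j ^ 2) := by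
  rcases h with ⟨J, v, t, φ, hv, ht, hφ, hA⟩ | ⟨w, t, I, hI, ⟨k0, hk0, hk1, l0, hl0, hl1, hkl⟩, h | h⟩
  · exact Pool.Agent.BalanWangRC.main_curve hM.le A r hr J v t hv
      (fun k hk l hl e => ht k (by exact_mod_cast hk) l (by exact_mod_cast hl) e) φ hφ hA
  · exact Pool.Agent.BalanWangRC.main_relations hM.le A r hr w t I hI hk0 hl0 hk1 hl1 hkl h
  · exact Pool.Agent.BalanWangRC.main_vectors hM.le A r hr w t I hI hk0 hl0 hk1 hl1 hkl h

end Pool.Agent.Results.MP_686ee2_an.RationalCurve
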